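import Pool.Agent.H875.HD.Fin

set_option autoImplicit false

/-!
# MP_4e5e8a_nt: the Lindelöf hypothesis and the derivatives of zeta of order `a log T`

For a fixed order `k` the Riemann hypothesis keeps (nearly) all zeros of `ζ^(k)` to the right of the critical line
(Speiser, Levinson - Montgomery). Here the order `n` grows like a small multiple of `log T`, where `T` is the
height. We show what the Lindelöf hypothesis says about these derivatives.

* `FewLeft a`: for every `δ > 0`, all `ζ^(n)` with `a log T ≤ n ≤ ½ log T` have `o(log T)` zeros `s` with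
  `|Im s - T| ≤ 1` and `0 ≤ Re s ≤ 1/2 - δ`.
* `Size a c`: `|ζ^(n)(1/2 + iT)| ≤ (log T)^n T^ε` for all `ε > 0`, all large `T` and `a log T ≤ n ≤ c log T`.

Results.
1. If `0 < b ≤ 1/2` and `ζ(1/2 + b + it) = O(t^ε)`, then `ζ^(n)` has for all `n ≤ log T` only `o(log T)` zeros near
   height `T` with `Re s ≤ 1/2 + n / log T - b - δ`, and `Size b 1`. For `b = 1/2` this is unconditional.
2. Conversely, `FewLeft a` or `Size a ½` implies `ζ(1/2 + r + it) = O(t^ε)` for `r > 2 a`, and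
   `ζ(1/2 + it) = O(t^(a + ε))`, which would be new for `a < 13/84`.
3. The Lindelöf hypothesis holds if and only if `FewLeft a` for all `a > 0`.
4. The Lindelöf hypothesis holds if and only if `Size a ½` for all `a > 0`.

So for the orders `n > ½ log T` nothing is left to prove, and each interval of orders `n > a log T`, `a < 13/84`,
would give something new about zeta itself.

Proof. Let `L = log T` and `g(u) = ζ(1/2 + iT - u)`. On the left (`Re u > 0` large) `g` behaves like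
`T^u \overline{ζ}(1/2 - iT + u)` up to a constant factor, and termwise differentiation shows
`|g^(n)(u)| ≍ L^n T^(Re u)` for `Re u ≥ n/L + 3`. If `ζ(1/2 + b + it) = O(t^ε)` then Cauchy's formula on the circle of
radius `n/L`, where `n! (L/n)^n e^n ≈ L^n`, gives `|g^(n)(u)| ≤ L^n T^(Re u + ε)` for `Re u ≥ b - n/L`, and Jensen's
formula gives few zeros there. Few zeros with `Re u > 0` give this bound on the left of the critical line by
the theorem of the three circles. Finally let `|g^(n)(η)| ≤ L^n T^(η + ε)` for `aL ≤ n ≤ L` and suppose that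
`ζ(1/2 + r₁ + it) = O(t^ε)`, where `r₁ > 2a`. In the Taylor series of `g(x)` at `η`, `x < r₁`, the terms with `n ≥ aL`
sum up to at most `T^(x + ε)`, and for `n < aL` Cauchy's formula on the circle with radius `2a` and the convexity
bound suffice when `a log(r₁/2a) + (r₁ + 2a)/2 < x`; since `a log(r₁/2a) < r₁/2 - a` some `x < r₁` is allowed, and
`ζ(1/2 + x + it) = O(t^ε)` follows by the functional equation. So `r₁` can be lowered until `r₁ = 2a`.
-/

namespace Pool.Agent.Results.MP_4e5e8a_nt.HighDerivatives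

open Complex

/-- For every `ε > 0`: `|ζ(σ + i t)| ≤ C |t| ^ (μ + ε)` for all real `t` with `|t| ≥ 1`. -/
def Exponent (σ μ : ℝ) : Prop := ∀ ε : ℝ, 0 < ε → ∃ C : ℝ, ∀ t : ℝ, 1 ≤ |t| →
  ‖riemannZeta (σ + t * I)‖ ≤ C * |t| ^ (μ + ε)

/-- The Lindelöf hypothesis. -/
def Lindelof : Prop := ∀ ε : ℝ, 0 < ε → ∃ C : ℝ, ∀ t : ℝ,
  ‖riemannZeta (1 / 2 + t * I)‖ ≤ C * (1 + |t|) ^ ε

/-- For all positive `δ` and `ε`, all large `T` and all `n` with `a log T ≤ n ≤ (1/2) log T`: any finitely many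
zeros `s` of the `n`-th derivative of zeta with `|Im s - T| ≤ 1` and `0 ≤ Re s ≤ 1/2 - δ` have total
multiplicity at most `ε log T`. -/
def FewLeft (a : ℝ) : Prop := ∀ δ ε : ℝ, 0 < δ → 0 < ε → ∃ T0 : ℝ, ∀ T : ℝ, T0 ≤ T → ∀ n : ℕ,
  a * Real.log T ≤ n → (n : ℝ) ≤ 1 / 2 * Real.log T → ∀ S : Finset ℂ,
  (∀ s ∈ S, iteratedDeriv n riemannZeta s = 0 ∧ |s.im - T| ≤ 1 ∧ 0 ≤ s.re ∧ s.re ≤ 1 / 2 - δ) →
    ∑ s ∈ S, (analyticOrderNatAt (iteratedDeriv n riemannZeta) s : ℝ) ≤ ε * Real.log T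

/-- For every `ε > 0`, all large `T` and all `n` with `a log T ≤ n ≤ c log T`: the `n`-th derivative of zeta at
`1/2 + iT` is at most `(log T)^n T^ε`. -/
def Size (a c : ℝ) : Prop := ∀ ε : ℝ, 0 < ε → ∃ T0 : ℝ, ∀ T : ℝ, T0 ≤ T → ∀ n : ℕ,
  a * Real.log T ≤ n → (n : ℝ) ≤ c * Real.log T →
    ‖iteratedDeriv n riemannZeta (1 / 2 + T * I)‖ ≤ Real.log T ^ n * T ^ ε

/-- For all positive `δ` and `ε`, all large `T` and all `n` with `1 ≤ n ≤ log T`: any finitely many zeros `s` of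
the `n`-th derivative of zeta with `|Im s - T| ≤ 1` and `-10 ≤ Re s ≤ 1/2 + n / log T - b - δ` have total
multiplicity at most `ε log T`. -/
def FewZeros (b : ℝ) : Prop := ∀ δ ε : ℝ, 0 < δ → 0 < ε → ∃ T0 : ℝ, ∀ T : ℝ, T0 ≤ T → ∀ n : ℕ,
  1 ≤ n → (n : ℝ) ≤ Real.log T → ∀ S : Finset ℂ,
  (∀ s ∈ S, iteratedDeriv n riemannZeta s = 0 ∧ |s.im - T| ≤ 1 ∧ -10 ≤ s.re ∧
    s.re ≤ 1 / 2 + n / Real.log T - b - δ) →
    ∑ s ∈ S, (analyticOrderNatAt (iteratedDeriv n riemannZeta) s : ℝ) ≤ ε * Real.log T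

open Pool.Agent.H875.HD (ex_of_few lh_of_few few_of_lh line_of_lh line_of_ex)
open Pool.Agent.Hp428.LS (ex_big ex_conv lh_ex LHyp)
open Pool.Agent.W186.LH (Ex)

lemma few_iff (a : ℝ) : FewLeft a ↔ Pool.Agent.H875.HD.FewLeft a := by
  have e : ∀ T : ℝ, 1 / 2 * Real.log T = Real.log T / 2 := fun T => by ring
  unfold FewLeft Pool.Agent.H875.HD.FewLeft
  simp only [e]

lemma size_iff (a : ℝ) : Size a (1 / 2) ↔ Pool.Agent.H875.HD.LineBd a := by
  have e : ∀ T : ℝ, 1 / 2 * Real.log T = Real.log T / 2 := fun T => by ring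
  unfold Size Pool.Agent.H875.HD.LineBd
  simp only [e, mul_comm I]

lemma forward {b : ℝ} (hb : 0 < b) (hb2 : b ≤ 1 / 2) (h : Ex (1 / 2 + b) 0) : FewZeros b ∧ Size b 1 := by
  constructor
  · intro δ ε hδ hε
    obtain ⟨T0, -, h1⟩ := Pool.Agent.H875.HD.few_of_ex hb hb2 h δ ε hδ hε
    exact ⟨T0, fun T hT n hn hnL S hS => h1 T hT n hn hnL S hS⟩
  · intro ε hε
    obtain ⟨T0, h1⟩ := line_of_ex hb hb2 h ε hε
    refine ⟨max T0 500, fun T hT n hn hnL => ?_⟩
    have g2 : 500 ≤ T := (le_max_right _ _).trans hT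
    have hL : 0 < Real.log T := Real.log_pos (by linarith)
    have hn1 : 1 ≤ n := by
      rcases Nat.eq_zero_or_pos n with h0 | h0
      · rw [h0] at hn
        have : 0 < b * Real.log T := by positivity
        simp at hn
        linarith
      · exact h0
    have h2 := h1 T ((le_max_left _ _).trans hT) n hn1 hn (by linarith)
    rwa [mul_comm I] at h2

/-- the exponent `a` on the critical line -/
lemma exp_half {a : ℝ} (ha : 0 < a) (h : ∀ r : ℝ, 2 * a < r → r ≤ 1 / 2 → Ex (1 / 2 + r) 0) :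
    Ex (1 / 2) a := by
  rcases le_or_gt (1 / 4) a with h1 | h1
  · have h2 : Ex (1 / 2) (1 / 2 / 2) := ex_conv (by norm_num) le_rfl (ex_big le_rfl)
    exact h2.mono (by linarith)
  · intro ε hε
    obtain ⟨r, hr⟩ : ∃ r : ℝ, r = min (1 / 2) (2 * a + ε) := ⟨_, rfl⟩
    have hr1 : 2 * a < r := by rw [hr]; exact lt_min (by linarith) (by linarith)
    have hr2 : r ≤ 1 / 2 := by rw [hr]; exact min_le_left _ _
    have hr3 : r ≤ 2 * a + ε := by rw [hr]; exact min_le_right _ _
    have h2 : Ex (1 / 2) (r / 2) := ex_conv (by linarith) hr2 (h r hr1 hr2)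
    have h3 : Ex (1 / 2) (a + ε / 2) := h2.mono (by linarith)
    obtain ⟨C, hC⟩ := h3 (ε / 2) (by linarith)
    refine ⟨C, fun t ht => ?_⟩
    have := hC t ht
    rwa [add_assoc, add_halves] at this

/-- **Main theorem.** (1) For `0 < b ≤ 1/2`, `ζ(1/2 + b + it) = O(t^ε)` implies that `ζ^(n)`, `n ≤ log T`, has few zeros
to the left of `Re s = 1/2 + n / log T - b`, and the bound `(log T)^n T^ε` for `ζ^(n)(1/2 + iT)` for all
`b log T ≤ n ≤ log T`. (2) For `b = 1/2` these conclusions are true. (3) For every `a > 0`, few zeros on the left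
of the critical line for `a log T ≤ n ≤ ½ log T`, or the bound for `ζ^(n)(1/2 + iT)` for these `n`, imply
`ζ(1/2 + r + it) = O(t^ε)` for `2 a < r ≤ 1/2` and `ζ(1/2 + it) = O(t^(a + ε))`. (4), (5) The Lindelöf
hypothesis is equivalent to each of these two properties for all `a > 0`. -/
theorem result :
    (∀ b : ℝ, 0 < b → b ≤ 1 / 2 → Exponent (1 / 2 + b) 0 → FewZeros b ∧ Size b 1) ∧
    (FewZeros (1 / 2) ∧ Size (1 / 2) 1) ∧
    (∀ a : ℝ, 0 < a → FewLeft a ∨ Size a (1 / 2) →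
      (∀ r : ℝ, 2 * a < r → r ≤ 1 / 2 → Exponent (1 / 2 + r) 0) ∧ Exponent (1 / 2) a) ∧
    (Lindelof ↔ ∀ a : ℝ, 0 < a → FewLeft a) ∧
    (Lindelof ↔ ∀ a : ℝ, 0 < a → Size a (1 / 2)) := by
  refine ⟨fun b hb hb2 h => forward hb hb2 h, forward (by norm_num) le_rfl (ex_big le_rfl), fun a ha h => ?_,
    ?_, ?_⟩
  · have h' : Pool.Agent.H875.HD.FewLeft a ∨ Pool.Agent.H875.HD.LineBd a := by
      rw [← few_iff, ← size_iff]; exact h
    have h1 : ∀ r : ℝ, 2 * a < r → r ≤ 1 / 2 → Ex (1 / 2 + r) 0 := fun r hr hr2 =>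
      ex_of_few ha hr (by linarith) h'
    exact ⟨h1, exp_half ha h1⟩
  · constructor
    · intro h a ha
      rw [few_iff]
      exact few_of_lh (lh_ex.1 h) a ha
    · intro h
      exact lh_ex.2 (lh_of_few fun a ha => Or.inl ((few_iff a).1 (h a ha)))
  · constructor
    · intro h a ha
      rw [size_iff]
      exact line_of_lh (lh_ex.1 h) a ha
    · intro h
      exact lh_ex.2 (lh_of_few fun a ha => Or.inr ((size_iff a).1 (h a ha)))

end Pool.Agent.Results.MP_4e5e8a_nt.HighDerivatives
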