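import Pool.Agent.Hp428.LS.Main

set_option autoImplicit false

/-!
# MP_4e5e8a_nt: the Lindelöf hypothesis and the zeros of `ξ(s + b) + ξ(s - b)`

For `b > 0` and real `θ` let `A_{θ,b}(s) = e^{iθ} ξ(s + b) + e^{-iθ} ξ(s - b)`; for `θ = 0` this is
`ξ(s + b) + ξ(s - b)`. The Riemann hypothesis implies that all zeros of `A_{θ,b}` are on the critical line, for
every `b > 0`; for `b ≥ 1/2` this is known. We show what the Lindelöf hypothesis says about these zeros.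
`FewZeros θ b` says that, for every `δ > 0`, the number of zeros of `A_{θ,b}` at distance at least `δ` from
the critical line and with imaginary part in `[T - 1, T + 1]` is `o(log T)`.

* (one function) The Lindelöf hypothesis holds if and only if `FewZeros θ b` for all `b > 0`; here `θ` is any
  fixed phase with `cos θ ≠ 0`, for example `θ = 0`.
* (fixed `b`) For every `b > 0` and any two different phases `θ₁`, `θ₂` modulo `π`: `ζ(1/2 + b + it) = O(t^ε)` for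
  all `ε > 0` if and only if `FewZeros θ₁ b` and `FewZeros θ₂ b`. For example (`θ₁ = 0`, `θ₂ = π/2`)
  if and only if `ξ(s + b) + ξ(s - b)` and `ξ(s + b) - ξ(s - b)` have few zeros off the line.
* (three shifts) `FewZeros θ b₁`, `FewZeros θ b₂` and `FewZeros θ (b₁ + b₂)` imply
  `ζ(1/2 + b₁ + b₂ + it) = O(t^ε)`. So `FewZeros θ (b / 2)` and `FewZeros θ b` imply
  `ζ(1/2 + it) = O(t^(b/2 + ε))`, which would be new for `b < 13/42`.

Proof. Far to the right `ξ(s + b)` is much larger than `ξ(s - b)`, so that the size of `A_{θ,b}` is known there. If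
there are few zeros to the right of the line, the three circles theorem gives the upper bound
`|A_{θ,b}(1/2 + σ + iT)| ≤ T^((σ + b)/2 + ε) |G(T)|` for all small `σ > 0` (`G(T)` is the size of the gamma factor of
`ξ(1/2 + iT)`); conversely such a bound gives few zeros by Jensen's formula. From the bounds for the sums one
gets back bounds for `ξ` itself by the identities
`2 i sin(θ₁ - θ₂) ξ(s + b) = e^{-iθ₂} A_{θ₁,b}(s) - e^{-iθ₁} A_{θ₂,b}(s)` and
`2 cos θ ξ(s) = A_{θ,b₁}(s + b₁) - e^{2iθ} A_{θ,b₂}(s + 2b₁ + b₂) + e^{2iθ} A_{θ,b₁+b₂}(s + b₁ + b₂)`;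
in the second one `s` is near the line `Re s = 1/2 - b₁ - b₂`.
-/

namespace Pool.Agent.Results.MP_4e5e8a_nt.ShiftSums

open Complex

/-- `s (s - 1) π^(-s/2) Γ(s/2) ζ(s)`, twice the Riemann xi function, as an entire function. -/
noncomputable def xi (s : ℂ) : ℂ := s * (s - 1) * completedRiemannZeta₀ s + 1

/-- The sum of two shifts `e^{iθ} ξ(s + b) + e^{-iθ} ξ(s - b)`. -/
noncomputable def A (θ b : ℝ) (s : ℂ) : ℂ :=
  exp (θ * I) * xi (s + b) + exp (-(θ * I)) * xi (s - b)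

/-- For all positive `δ` and `ε` and all large `T`: any finitely many zeros `s` of `A_{θ,b}` with
`|Im s - T| ≤ 1` and `|Re s - 1/2| ≥ δ` have total multiplicity at most `ε log T`. -/
def FewZeros (θ b : ℝ) : Prop := ∀ δ ε : ℝ, 0 < δ → 0 < ε → ∃ T0 : ℝ, ∀ T : ℝ, T0 ≤ T → ∀ S : Finset ℂ,
  (∀ s ∈ S, A θ b s = 0 ∧ |s.im - T| ≤ 1 ∧ δ ≤ |s.re - 1 / 2|) →
  ∑ s ∈ S, (analyticOrderNatAt (A θ b) s : ℝ) ≤ ε * Real.log T

/-- For every `ε > 0`: `|ζ(σ + i t)| ≤ C |t| ^ (μ + ε)` for all real `t` with `|t| ≥ 1`. -/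
def Exponent (σ μ : ℝ) : Prop := ∀ ε : ℝ, 0 < ε → ∃ C : ℝ, ∀ t : ℝ, 1 ≤ |t| →
  ‖riemannZeta (σ + t * I)‖ ≤ C * |t| ^ (μ + ε)

/-- The Lindelöf hypothesis. -/
def Lindelof : Prop := ∀ ε : ℝ, 0 < ε → ∃ C : ℝ, ∀ t : ℝ,
  ‖riemannZeta (1 / 2 + t * I)‖ ≤ C * (1 + |t|) ^ ε

open Pool.Agent.Hp428.LS
open Pool.Agent.H24R2.JP (XX)

lemma xi_XX (s : ℂ) : xi s = XX (s - 1 / 2) * (1 / 4) := by
  unfold xi XX
  have e : 1 / 2 + (s - 1 / 2) = s := by ring
  rw [e]
  ring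

lemma A_YY (θ b : ℝ) (s : ℂ) : A θ b s = YY θ b (1 * s + (-(1 / 2))) * (1 / 4) := by
  unfold A YY
  rw [xi_XX, xi_XX]
  have e1 : s + (b : ℂ) - 1 / 2 = 1 * s + -(1 / 2) + b := by ring
  have e2 : s - (b : ℂ) - 1 / 2 = 1 * s + -(1 / 2) - b := by ring
  rw [e1, e2]
  ring

lemma A_ord (θ : ℝ) {b : ℝ} (hb : 0 < b) (s : ℂ) :
    analyticOrderNatAt (A θ b) s = analyticOrderNatAt (YY θ b) (1 * s + (-(1 / 2))) := by
  have h := ord_tr (G := YY θ b) (E := fun _ => (1 / 4 : ℂ)) (YY_diff θ b) (YY_ne θ hb)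
    (a := 1) one_ne_zero (b := -(1 / 2)) (by fun_prop) (fun _ => by norm_num) s
  rw [← h]
  congr 1
  funext s
  exact A_YY θ b s

lemma few_iff (θ : ℝ) {b : ℝ} (hb : 0 < b) : FewZeros θ b ↔ FewY θ b := by
  classical
  have hz : ∀ s : ℂ, A θ b s = 0 ↔ YY θ b (1 * s + (-(1 / 2))) = 0 := fun s => by
    rw [A_YY]
    constructor
    · intro h
      rcases mul_eq_zero.1 h with h | h
      · exact h
      · norm_num at h
    · intro h
      rw [h, zero_mul]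
  constructor
  · intro h δ ε hδ hε
    obtain ⟨T0, h0⟩ := h δ ε hδ hε
    refine ⟨T0, fun T hT S hS => ?_⟩
    have k := h0 T hT (S.image fun z => z + 1 / 2) (by
      intro s hs
      rw [Finset.mem_image] at hs
      obtain ⟨z, hz1, rfl⟩ := hs
      obtain ⟨z1, z2, z3⟩ := hS z hz1
      have e : 1 * (z + 1 / 2) + -(1 / 2) = z := by ring
      rw [hz, e]
      refine ⟨z1, by simpa using z2, ?_⟩
      have e2 : (z + 1 / 2).re - 1 / 2 = z.re := by simp
      rw [e2]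
      exact z3)
    rw [Finset.sum_image (by
      intro x _ y _ hxy
      simpa using hxy)] at k
    refine le_trans (le_of_eq (Finset.sum_congr rfl fun z _ => ?_)) k
    have e : 1 * (z + 1 / 2) + -(1 / 2) = z := by ring
    rw [A_ord θ hb, e]
  · intro h δ ε hδ hε
    obtain ⟨T0, h0⟩ := h δ ε hδ hε
    refine ⟨T0, fun T hT S hS => ?_⟩
    have k := h0 T hT (S.image fun s => 1 * s + (-(1 / 2))) (by
      intro z hz1
      rw [Finset.mem_image] at hz1
      obtain ⟨s, hs, rfl⟩ := hz1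
      obtain ⟨s1, s2, s3⟩ := hS s hs
      refine ⟨(hz s).1 s1, by simpa using s2, ?_⟩
      have e2 : (1 * s + -(1 / 2)).re = s.re - 1 / 2 := by simp; ring
      rw [e2]
      exact s3)
    rw [Finset.sum_image (by
      intro x _ y _ hxy
      simpa using hxy)] at k
    refine le_trans (le_of_eq (Finset.sum_congr rfl fun s _ => ?_)) k
    rw [A_ord θ hb]

/-- **Main theorem.** (1) For every phase `θ` with `cos θ ≠ 0` the Lindelöf hypothesis is equivalent to `FewZeros θ b`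
for all `b > 0`. (2) For every `b > 0` and any two phases different modulo `π` the bound
`ζ(1/2 + b + it) = O(t^ε)` is equivalent to few zeros for both. (3) Few zeros for `b₁`, `b₂` and `b₁ + b₂` give
`ζ(1/2 + b₁ + b₂ + it) = O(t^ε)`. (4) Few zeros for `b / 2` and `b ≤ 1/2` give `ζ(1/2 + it) = O(t^(b/2 + ε))`. -/
theorem result :
    (∀ θ : ℝ, Real.cos θ ≠ 0 → (Lindelof ↔ ∀ b : ℝ, 0 < b → FewZeros θ b)) ∧
    (∀ b θ₁ θ₂ : ℝ, 0 < b → Real.sin (θ₁ - θ₂) ≠ 0 →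
      (Exponent (1 / 2 + b) 0 ↔ FewZeros θ₁ b ∧ FewZeros θ₂ b)) ∧
    (∀ θ b₁ b₂ : ℝ, Real.cos θ ≠ 0 → 0 < b₁ → 0 < b₂ → FewZeros θ b₁ → FewZeros θ b₂ → FewZeros θ (b₁ + b₂) →
      Exponent (1 / 2 + (b₁ + b₂)) 0) ∧
    (∀ θ b : ℝ, Real.cos θ ≠ 0 → 0 < b → b ≤ 1 / 2 → FewZeros θ (b / 2) → FewZeros θ b →
      Exponent (1 / 2) (b / 2)) := by
  refine ⟨fun θ hθ => ?_, fun b θ₁ θ₂ hb hs => ⟨fun h => ?_, fun h => ?_⟩,
    fun θ b₁ b₂ hθ h1 h2 k1 k2 k3 => ?_, fun θ b hθ h1 h2 k1 k2 => ?_⟩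
  · refine (lh_iff hθ).trans ⟨fun h b hb => (few_iff θ hb).2 (h b hb), fun h b hb => (few_iff θ hb).1 (h b hb)⟩
  · rw [few_iff θ₁ hb, few_iff θ₂ hb]
    constructor
    · intro δ ε hδ hε
      obtain ⟨T0, h0⟩ := few_of_ex hb h δ ε hδ hε
      exact ⟨T0, fun T hT S hS => h0 T hT θ₁ S hS⟩
    · intro δ ε hδ hε
      obtain ⟨T0, h0⟩ := few_of_ex hb h δ ε hδ hε
      exact ⟨T0, fun T hT S hS => h0 T hT θ₂ S hS⟩
  · exact ex_two hs hb ((few_iff θ₁ hb).1 h.1) ((few_iff θ₂ hb).1 h.2)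
  · exact ex_three hθ h1 h2 ((few_iff θ h1).1 k1) ((few_iff θ h2).1 k2) ((few_iff θ (by linarith)).1 k3)
  · have hb2 : 0 < b / 2 := by linarith
    have := ex_three hθ hb2 hb2 ((few_iff θ hb2).1 k1) ((few_iff θ hb2).1 k1)
      (by rw [add_halves]; exact (few_iff θ h1).1 k2)
    rw [add_halves] at this
    exact ex_conv h1 h2 this

end Pool.Agent.Results.MP_4e5e8a_nt.ShiftSums
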