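import Pool.Agent.H875.TC.Ser

set_option autoImplicit false

/-!
# MP_4e5e8a_nt: the Lindelöf hypothesis in the half plane of absolute convergence

Let `μ(σ)` be the exponent of growth of `ζ(σ + it)`. If `ζ(σ + it) = O(t^(c + ε))` and `σ0 > σ`, then Cauchy's
estimate on the circle with centre `σ0 + it` and radius `σ0 - σ` gives `|ζ^(n)(σ0 + it)| ≤ n! (σ0 - σ)^(-n) t^(c + ε)`
for every `n`. We show that these inequalities for the orders `n ≤ ½ (σ0 - σ) log t` alone give the bound for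
`ζ(σ + it)` back. The abscissa `σ0 > σ` is arbitrary; for `σ0 > 1` the derivatives are absolutely convergent
Dirichlet series. So the whole function `μ` can be read off in the half plane of absolute convergence, and the
Lindelöf hypothesis is equivalent to `|∑ (log m)^n m^(-3/2 - it)| ≤ n! t^ε` for `n ≤ ½ log t`.

Proof. Let `D = σ0 - σ`, let `e > c` be such that `ζ(σ + it) = O(t^(e + ε))`, and let `h > 0` be small. In the Taylor
series of `ζ` with centre `σ0 + it`, at the point `σ + h + it`, the terms with `n ≤ ½ D log t` contribute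
`O(t^(c + ε))` by assumption, and the other ones at most `(1 - h/D)^(½ D log t) t^(e + ε)` by Cauchy's estimate, that
is `O(t^(e' + ε))` with `e' = e + ½ D log(1 - h/D) < e - h/2`. So `ζ(σ + h + it) = O(t^(max(c, e') + ε))`. Now the
functional equation and the convexity theorem (between `σ + h` and `1 - σ - h`) show that
`ζ(σ + it) = O(t^(e'' + ε))` with `e'' = max(c, e') + h/2`, which is less than `e` if `h < e - c`. Hence the infimum of
all admissible `e` is at most `c`. (Without a functional equation all `n ≤ C log t` with a large constant `C` would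
be needed.)
-/

namespace Pool.Agent.Results.MP_4e5e8a_nt.TaylorCoefficients

open Complex

/-- For every `ε > 0`: `|ζ(σ + i t)| ≤ C |t| ^ (μ + ε)` for all real `t` with `|t| ≥ 1`. -/
def Exponent (σ μ : ℝ) : Prop := ∀ ε : ℝ, 0 < ε → ∃ C : ℝ, ∀ t : ℝ, 1 ≤ |t| →
  ‖riemannZeta (σ + t * I)‖ ≤ C * |t| ^ (μ + ε)

/-- The Lindelöf hypothesis. -/
def Lindelof : Prop := ∀ ε : ℝ, 0 < ε → ∃ C : ℝ, ∀ t : ℝ,
  ‖riemannZeta (1 / 2 + t * I)‖ ≤ C * (1 + |t|) ^ ε

/-- For every `ε > 0`, all large `t` and all `n ≤ ½ (σ0 - σ) log t`: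
`|ζ^(n)(σ0 + i t)| ≤ n! (σ0 - σ)^(-n) t^(c + ε)`. -/
def CauchyBound (σ σ0 c : ℝ) : Prop := ∀ ε : ℝ, 0 < ε → ∃ T0 : ℝ, ∀ t : ℝ, T0 ≤ t → ∀ n : ℕ,
  (n : ℝ) ≤ (σ0 - σ) / 2 * Real.log t →
  ‖iteratedDeriv n riemannZeta ((σ0 : ℂ) + t * I)‖ ≤ (n.factorial : ℝ) / (σ0 - σ) ^ n * t ^ (c + ε)

open Pool.Agent.H875.TC (DB main_iff zeta_iter)
open Pool.Agent.Hp428.LS (lh_ex LHyp)
open Pool.Agent.W186.LH (Ex)

theorem result :
    (∀ σ σ0 c : ℝ, 1 / 2 ≤ σ → σ < 1 → σ < σ0 → 0 ≤ c → (Exponent σ c ↔ CauchyBound σ σ0 c)) ∧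
    (Lindelof ↔ ∀ ε : ℝ, 0 < ε → ∃ T0 : ℝ, ∀ t : ℝ, T0 ≤ t → ∀ n : ℕ, (n : ℝ) ≤ Real.log t / 2 →
      ‖∑' m : ℕ, (Real.log ((m : ℝ) + 1) : ℂ) ^ n / ((m : ℂ) + 1) ^ (3 / 2 + t * I)‖ ≤
        (n.factorial : ℝ) * t ^ ε) := by
  refine ⟨fun σ σ0 c h1 h2 h3 h4 => main_iff h1 h2 h3 h4, ?_⟩
  have h1 : Lindelof ↔ Ex (1 / 2) 0 := lh_ex
  have h2 : Ex (1 / 2) 0 ↔ DB (1 / 2) (3 / 2) 0 :=
    main_iff le_rfl (by norm_num) (by norm_num) le_rfl
  have e : ∀ (t : ℝ) (n : ℕ), ‖iteratedDeriv n riemannZeta (((3 / 2 : ℝ) : ℂ) + t * I)‖ =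
      ‖∑' m : ℕ, (Real.log ((m : ℝ) + 1) : ℂ) ^ n / ((m : ℂ) + 1) ^ (3 / 2 + t * I)‖ := by
    intro t n
    rw [zeta_iter n (by simp; norm_num), norm_mul, norm_pow, norm_neg, norm_one, one_pow, one_mul]
    push_cast
    rfl
  have e2 : ∀ t : ℝ, ((3 / 2 : ℝ) - 1 / 2) / 2 * Real.log t = Real.log t / 2 := fun t => by ring
  have e3 : ∀ n : ℕ, (n.factorial : ℝ) / ((3 / 2 : ℝ) - 1 / 2) ^ n = n.factorial := fun n => by norm_num
  rw [h1, h2]
  unfold DB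
  constructor
  · intro h ε hε
    obtain ⟨T0, h0⟩ := h ε hε
    refine ⟨T0, fun t ht n hn => ?_⟩
    have := h0 t ht n (by rw [e2]; exact hn)
    rwa [e, e3, zero_add] at this
  · intro h ε hε
    obtain ⟨T0, h0⟩ := h ε hε
    refine ⟨T0, fun t ht n hn => ?_⟩
    rw [e2] at hn
    rw [e, e3, zero_add]
    exact h0 t ht n hn

end Pool.Agent.Results.MP_4e5e8a_nt.TaylorCoefficients
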