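import Pool.Agent.Helper156_SM.FinK

/-!
# The Lindelöf hypothesis and shifted integrals for thick sets of shifts

For a real shift `u` and an integer `k ≥ 1` let
`J_k(u; a, b) = ∫_a^b ζ(1/2 + i(t + u))^k conj(ζ(1/2 + i(t - u)))^k dt`. For `u = 0` the integrand is
`|ζ(1/2 + it)|^(2k)`; for `u ≠ 0` it oscillates (for `k = 1` and short intervals the integral is, up to a factor of
modulus one and a small error, the local autocorrelation of Hardy's function with lag `2u`).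

A set `E` of real numbers is called thick at `0` if there are a Borel measure `μ` and `s > 0`, `K` with
`μ [x, y] ≤ K (y - x) ^ s` for all `x ≤ y`, such that for every `c > 0` the outer measure `μ (E ∩ [-r, r])` is at least
`r ^ (s + c)` for arbitrarily small `r > 0`. Sets of positive upper density at `0` are thick (`s = 1`), but `E` may
have Lebesgue measure zero and any positive dimension `s`.

* (unit intervals) For all `k ≥ 1` and `κ ≥ 0`: `ζ(1/2 + it) = O(|t| ^ (κ + ε))` for all `ε > 0` if and only if the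
  set of the shifts `u` with `J_k(u; t, t + 1) = O(t ^ (2 k κ + ε))` for all `ε > 0` is thick at `0`. The case `κ = 0`
  is the Lindelöf hypothesis.
* (moments) For all `k ≥ 1` and `β ≥ 0`: `∫_0^T |ζ(1/2 + it)|^(2k) dt = O(T ^ (β + ε))` for all `ε > 0` if and only
  if the set of the shifts `u` with `J_k(u; 0, T) = O(T ^ (β + ε))` for all `ε > 0` is thick at `0`.
* So the Lindelöf hypothesis holds if and only if, for every `k`, this set of shifts is thick at `0` for `β = 1`.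

In all cases the set of shifts is the whole line if it is thick at `0`. The constants in the `O` may depend on `u`
in an arbitrary way.

Proof. `J_k` is analytic in `u`. Points of `E ∩ [-r, r]` which are quantiles of `μ` are well distributed, so that
interpolation at `n + 1` of them gives a Remez type inequality
`|Φ(0)| ≤ Q ^ n (sup_E |Φ| + 2 M (r / R) ^ n)`, `Q = r ^ (-o(1))`, for functions analytic and bounded by `M` in the disc of
radius `R`; with `n` next to `λ log T`, `λ` small, and `r` small the loss is `T ^ ε` only. The constants of the shifts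
are made uniform by the continuity of the outer measure. A local mean value estimate leads back from the integrals of
`|ζ|^(2k)` to `ζ` itself.
-/

set_option autoImplicit false

open MeasureTheory Set

namespace Pool.Agent.Results.MP_4e5e8a_nt.ThickShiftSets

/-- `J_k(u; a, b)` -/
noncomputable def shiftedIntegral (k : ℕ) (u a b : ℝ) : ℂ :=
  ∫ t in a..b, riemannZeta (1 / 2 + (t + u) * Complex.I) ^ k *
    (starRingEnd ℂ) (riemannZeta (1 / 2 + (t - u) * Complex.I)) ^ k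

/-- `E` is thick at `0` -/
def Thick (E : Set ℝ) : Prop :=
  ∃ (μ : Measure ℝ) (s K : ℝ), 0 < s ∧
    (∀ x y : ℝ, x ≤ y → μ (Icc x y) ≤ ENNReal.ofReal (K * (y - x) ^ s)) ∧
    ∀ c : ℝ, 0 < c → ∀ r₀ : ℝ, 0 < r₀ → ∃ r : ℝ, 0 < r ∧ r ≤ r₀ ∧
      ENNReal.ofReal (r ^ (s + c)) ≤ μ (E ∩ Icc (-r) r)

/-- `ζ(1/2 + it) = O(|t| ^ (κ + ε))` for all `ε > 0`; for `κ = 0` this is the Lindelöf hypothesis -/
def Growth (κ : ℝ) : Prop :=
  ∀ ε : ℝ, 0 < ε → ∃ C : ℝ, ∀ t : ℝ, ‖riemannZeta (1 / 2 + t * Complex.I)‖ ≤ C * (1 + |t|) ^ (κ + ε)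

/-- the shifts `u` with `J_k(u; t, t + 1) = O(t ^ (β + ε))` for all `ε > 0` -/
def goodLocal (k : ℕ) (β : ℝ) : Set ℝ :=
  {u : ℝ | ∀ ε : ℝ, 0 < ε → ∃ C : ℝ, ∀ t : ℝ, 1 ≤ t → ‖shiftedIntegral k u t (t + 1)‖ ≤ C * t ^ (β + ε)}

/-- the shifts `u` with `J_k(u; 0, T) = O(T ^ (β + ε))` for all `ε > 0` -/
def goodMoment (k : ℕ) (β : ℝ) : Set ℝ :=
  {u : ℝ | ∀ ε : ℝ, 0 < ε → ∃ C : ℝ, ∀ T : ℝ, 1 ≤ T → ‖shiftedIntegral k u 0 T‖ ≤ C * T ^ (β + ε)}

theorem result :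
    (∀ k : ℕ, 1 ≤ k → ∀ κ : ℝ, 0 ≤ κ →
      (Growth κ ↔ Thick (goodLocal k (2 * k * κ))) ∧ (Growth κ ↔ goodLocal k (2 * k * κ) = univ)) ∧
    (∀ k : ℕ, 1 ≤ k → ∀ β : ℝ, 0 ≤ β →
      ((∀ ε : ℝ, 0 < ε → ∃ C : ℝ, ∀ T : ℝ, 1 ≤ T →
        ∫ t in (0 : ℝ)..T, ‖riemannZeta (1 / 2 + t * Complex.I)‖ ^ (2 * k) ≤ C * T ^ (β + ε)) ↔ Thick (goodMoment k β)) ∧
      (Thick (goodMoment k β) ↔ goodMoment k β = univ)) ∧
    (Growth 0 ↔ ∀ k : ℕ, 1 ≤ k → Thick (goodMoment k 1)) ∧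
    (∀ (E : Set ℝ) (κ : ℝ), 0 < κ →
      (∀ r₀ : ℝ, 0 < r₀ → ∃ r : ℝ, 0 < r ∧ r ≤ r₀ ∧ ENNReal.ofReal (κ * r) ≤ volume (E ∩ Icc (-r) r)) → Thick E) := by
  have hloc : ∀ k : ℕ, 1 ≤ k → ∀ κ : ℝ, 0 ≤ κ → Growth κ → goodLocal k (2 * k * κ) = univ := by
    intro k _ κ hκ h
    rw [eq_univ_iff_forall]
    intro u
    exact Pool.Agent.Helper156_SM.local_of_growth k hκ h u
  have hmom : ∀ k : ℕ, 1 ≤ k → ∀ β : ℝ, 0 ≤ β → (∀ ε : ℝ, 0 < ε → ∃ C : ℝ, ∀ T : ℝ, 1 ≤ T →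
        ∫ t in (0 : ℝ)..T, ‖riemannZeta (1 / 2 + t * Complex.I)‖ ^ (2 * k) ≤ C * T ^ (β + ε)) →
        goodMoment k β = univ := by
    intro k _ β hβ h
    rw [eq_univ_iff_forall]
    intro u ε hε
    obtain ⟨C, hC⟩ := h ε hε
    exact Pool.Agent.Helper156_SM.moment_conv k (by linarith) hC u
  have hback : ∀ k : ℕ, 1 ≤ k → ∀ κ : ℝ, 0 ≤ κ → Thick (goodLocal k (2 * k * κ)) → Growth κ := by
    intro k hk κ hκ h
    exact Pool.Agent.Helper156_SM.growth_of_local hk hκ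
      (Pool.Agent.Helper156_SM.local_of_thick k h (by positivity) (fun u hu => hu))
  have hback2 : ∀ k : ℕ, 1 ≤ k → ∀ β : ℝ, 0 ≤ β → Thick (goodMoment k β) → (∀ ε : ℝ, 0 < ε → ∃ C : ℝ, ∀ T : ℝ, 1 ≤ T →
        ∫ t in (0 : ℝ)..T, ‖riemannZeta (1 / 2 + t * Complex.I)‖ ^ (2 * k) ≤ C * T ^ (β + ε)) := by
    intro k _ β hβ h
    exact Pool.Agent.Helper156_SM.moment_of_thick k h hβ (fun u hu => hu)
  have huniv : Thick univ := Pool.Agent.Helper156_SM.thick_univ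
  refine ⟨fun k hk κ hκ => ⟨⟨fun h => ?_, hback k hk κ hκ⟩, hloc k hk κ hκ, fun h => ?_⟩,
    fun k hk β hβ => ⟨⟨fun h => ?_, hback2 k hk β hβ⟩, fun h => ?_, fun h => ?_⟩, ⟨fun h k hk => ?_, fun h => ?_⟩,
    fun E κ hκ h => Pool.Agent.Helper156_SM.thick_of_density hκ h⟩
  · rw [hloc k hk κ hκ h]; exact huniv
  · apply hback k hk κ hκ
    rw [h]; exact huniv
  · rw [hmom k hk β hβ h]; exact huniv
  · exact hmom k hk β hβ (hback2 k hk β hβ h)
  · rw [h]; exact huniv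
  · have h1 : ∀ ε : ℝ, 0 < ε → ∃ C : ℝ, ∀ T : ℝ, 1 ≤ T →
        ∫ t in (0 : ℝ)..T, ‖riemannZeta (1 / 2 + t * Complex.I)‖ ^ (2 * k) ≤ C * T ^ (1 + ε) :=
      Pool.Agent.Helper156_SM.moment_of_growth k h
    rw [hmom k hk 1 zero_le_one h1]; exact huniv
  · apply Pool.Agent.Helper156_SM.lindelof_of_moments
    intro k hk
    obtain ⟨C, hC⟩ := hback2 k hk 1 zero_le_one (h k hk) 1 one_pos
    refine ⟨C, fun T hT => ?_⟩
    have := hC T hT
    rwa [show (1 : ℝ) + 1 = 2 by norm_num] at this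

end Pool.Agent.Results.MP_4e5e8a_nt.ThickShiftSets
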